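import Pool.Agent.H21SS.Asm3
import Pool.Agent.H189R3.SS.K0
import Pool.Agent.H21SS.K1_helper614
import Pool.Agent.H21SS.K2_helper407
import Pool.Agent.H21SS.K3_helper573
import Pool.Agent.H21SS.E_helper686
import Pool.Agent.H21SS.TaskC_helper802
import Pool.Agent.H21SS.S_helper388
import Pool.Agent.H21SS.X_helper269

/-!
# The coefficient problem for strongly starlike functions of small order

For every order `0 < α ≤ 1/200` and every `n ≥ 2` the sharp bound of the `n`-th coefficient of the
strongly starlike functions of order `α` is `2 α / (n - 1)`.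
-/

set_option autoImplicit false
open Metric

namespace Pool.Agent.Results.MP_bdc337_an.SmallOrder

/-- For all `0 < α ≤ 1/200` and ALL `n ≥ 2`: `max |a_n| = 2 α / (n - 1)` over the strongly starlike
functions of order `α`. -/
theorem result (α : ℝ) (hα : 0 < α) (hα1 : α ≤ 1 / 200) (n : ℕ) (hn : 2 ≤ n) :
    IsGreatest {x : ℝ | ∃ f : ℂ → ℂ, Pool.Agent.H21SS.SS α f ∧
      x = ‖iteratedDeriv n f 0 / (n.factorial : ℂ)‖} (2 * α / (n - 1)) := by
  constructor
  · obtain ⟨f, hf, h⟩ := Pool.Agent.H21SS.TaskX.main α n hα (by linarith) hn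
    exact ⟨f, hf, h.symm⟩
  · rintro x ⟨f, hf, rfl⟩
    exact Pool.Agent.H21SS.Asm.upper Pool.Agent.H189R3.SS.taskK0 Pool.Agent.H21SS.K1.main
      Pool.Agent.H21SS.K2.main Pool.Agent.H21SS.K3.main Pool.Agent.H21SS.E.main
      Pool.Agent.H21SS.TaskC.main Pool.Agent.H21SS.S.main hα hα1 hf hn

end Pool.Agent.Results.MP_bdc337_an.SmallOrder
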